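import Pool.Agent.J6H86.NP.Main

set_option autoImplicit false

namespace Pool.Agent.Results.MP_5027f4_mp.NondegenerateUnstable

/-- Phase points of `n` bodies in the plane `ℂ`: positions and velocities (product topology). -/
abbrev Ph (n : ℕ) := (Fin n → ℂ) × (Fin n → ℂ)

/-- Newtonian acceleration of body `a`: `∑_{b ≠ a} m_b (q_b - q_a) / |q_b - q_a|^3`. -/
noncomputable def acc {n : ℕ} (m : Fin n → ℝ) (q : Fin n → ℂ) (a : Fin n) : ℂ :=
  ∑ b ∈ Finset.univ.erase a, ((m b / ‖q b - q a‖ ^ 3 : ℝ) : ℂ) * (q b - q a)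

/-- The phase space in the centre of mass frame: no collisions, `∑ m_a q_a = 0`, `∑ m_a v_a = 0`. -/
def phaseSpace {n : ℕ} (m : Fin n → ℝ) : Set (Ph n) :=
  {z | (∀ a b, a ≠ b → z.1 a ≠ z.1 b) ∧ ∑ a, (m a : ℂ) * z.1 a = 0 ∧ ∑ a, (m a : ℂ) * z.2 a = 0}

/-- `x = (q, v)` is a solution of Newton's equations on the time set `J`, in the centre of mass frame. -/
def IsSol {n : ℕ} (m : Fin n → ℝ) (J : Set ℝ) (x : ℝ → Ph n) : Prop :=
  ∀ t ∈ J, x t ∈ phaseSpace m ∧ HasDerivWithinAt x ((x t).2, acc m (x t).1) J t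

/-- All mutual distances of the solution `x` are `T`-periodic functions of time. -/
def DistPer {n : ℕ} (x : ℝ → Ph n) (T : ℝ) : Prop :=
  ∀ t a b, ‖(x (t + T)).1 a - (x (t + T)).1 b‖ = ‖(x t).1 a - (x t).1 b‖

/-- All mutual distances are constant: a relative equilibrium. -/
def IsRelEq {n : ℕ} (x : ℝ → Ph n) : Prop :=
  ∀ t a b, ‖(x t).1 a - (x t).1 b‖ = ‖(x 0).1 a - (x 0).1 b‖

/-- Lyapunov stability of an orbit `γ` in the centre of mass frame: for every neighbourhood `U₁` there is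
a neighbourhood `U₂` such that every solution on `[0, ∞)` that starts in `U₂` stays in `U₁`. -/
def LyapunovStable {n : ℕ} (m : Fin n → ℝ) (γ : Set (Ph n)) : Prop :=
  ∀ U₁ : Set (Ph n), IsOpen U₁ → γ ⊆ U₁ → ∃ U₂ : Set (Ph n), IsOpen U₂ ∧ γ ⊆ U₂ ∧
    ∀ y : ℝ → Ph n, IsSol m (Set.Ici 0) y → y 0 ∈ U₂ → ∀ t : ℝ, 0 ≤ t → y t ∈ U₁

/-- Rotate a phase point by `c` and relabel the bodies by `σ`. -/
def twist {n : ℕ} (c : ℂ) (σ : Equiv.Perm (Fin n)) (z : Ph n) : Ph n :=
  (fun a => c * z.1 (σ a), fun a => c * z.2 (σ a))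

/-- Nondegeneracy of a solution `x` with `x (t + S) = twist c σ (x t)`: every solution
`ξ = (δq, δv)` of the linearised equations `δq' = δv`, `δv' = D acc (q) δq` along `x`, in the centre
of mass frame and with `ξ (t + S) = twist c σ (ξ t)`, is a combination of the two trivial ones: the
velocity `x'` (shift of the time) and `i x` (rotation). -/
def Nondegenerate {n : ℕ} (m : Fin n → ℝ) (x : ℝ → Ph n) (c : ℂ) (σ : Equiv.Perm (Fin n))
    (S : ℝ) : Prop :=
  ∀ ξ : ℝ → Ph n,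
    (∀ t, ∑ a, (m a : ℂ) * (ξ t).1 a = 0 ∧ ∑ a, (m a : ℂ) * (ξ t).2 a = 0) →
    (∀ t, HasDerivAt ξ ((ξ t).2, fderiv ℝ (acc m) (x t).1 (ξ t).1) t) →
    (∀ t, ξ (t + S) = twist c σ (ξ t)) →
    ∃ a b : ℝ, ∀ t, ξ t = a • ((x t).2, acc m (x t).1) + b • (Complex.I • x t)

/-- Nondegenerate relative periodic orbits of the planar `n`-body problem are not Lyapunov stable. Let
`x` be a solution, not a relative equilibrium, with `x (t + S) = twist c σ (x t)` for some `S > 0`,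
some rotation `c` and some permutation `σ` of the bodies which respects the masses. If `x` is
nondegenerate, then its orbit is not Lyapunov stable in the centre of mass frame. This covers all
relative periodic solutions: if the mutual distances have the period `T`, then `x (t + 2 T) = c x t`
for a rotation `c`. -/
theorem result {n : ℕ} {m : Fin n → ℝ} (hn : 2 ≤ n) (hm : ∀ a, 0 < m a) {x : ℝ → Ph n}
    (hx : IsSol m Set.univ x) (hne : ¬ IsRelEq x) :
    (∀ (c : ℂ) (σ : Equiv.Perm (Fin n)) (S : ℝ), ‖c‖ = 1 → (∀ a, m (σ a) = m a) → 0 < S →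
      (∀ t, x (t + S) = twist c σ (x t)) → Nondegenerate m x c σ S →
      ¬ LyapunovStable m (Set.range x)) ∧
    ∀ T : ℝ, 0 < T → DistPer x T → ∃ c : ℂ, ‖c‖ = 1 ∧ (∀ t, x (t + 2 * T) = c • x t) ∧
      (Nondegenerate m x c 1 (2 * T) → ¬ LyapunovStable m (Set.range x)) := by
  have key : ∀ (c : ℂ) (σ : Equiv.Perm (Fin n)) (S : ℝ), ‖c‖ = 1 → (∀ a, m (σ a) = m a) → 0 < S →
      (∀ t, x (t + S) = twist c σ (x t)) → Nondegenerate m x c σ S →
      ¬ LyapunovStable m (Set.range x) := fun c σ S hc hσ hS hper hnd =>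
    Pool.Agent.J6H86.NP.main hn hm hx hc hσ hS hper hne hnd
  refine ⟨key, fun T hT hdist => ?_⟩
  obtain ⟨c, hc, hrot⟩ := Pool.Agent.W821.TB.rot_of_distPer Pool.Agent.W827.TB.Gram.main hn hm hx hdist
  exact ⟨c, hc, hrot, fun hnd => key c 1 (2 * T) hc (fun _ => rfl) (by positivity) hrot hnd⟩

end Pool.Agent.Results.MP_5027f4_mp.NondegenerateUnstable
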