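import Pool.Agent.J6H86.NP.Fam4

/-!
# Stable reduced nondegenerate orbits of the planar `n`-body problem lie in families like the Kepler ellipses

Let `x` be a solution of the planar `n`-body problem, not a relative equilibrium, with
`x (t + S) = twist c σ (x t)` (rotation by `c`, relabelling of the bodies by `σ`). It is called reduced
nondegenerate if the linearised return map of the system reduced by the rotations, restricted to the
level of energy and angular momentum, has no eigenvalue one. In general such an orbit lies in a family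
of relative periodic solutions with two parameters, energy and angular momentum, along which the
period and the rotation vary; up to scaling there is one parameter.

**Result.** If the orbit of `x` is Lyapunov stable, then `x` is a member `y 0` of a smooth family `y h` of
solutions with the *same* period `S`, the *same* rotation `c`, the *same* energy, and the angular momentum
`C(x) + h`. This is what the Kepler ellipses with the same semi-axis do (they are reduced nondegenerate and
stable, for `n = 2`). So a reduced nondegenerate orbit is unstable if its rotation angle, or its period at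
fixed energy, is not locally constant along the family, to whatever order; in particular if it is
isolated, up to the symmetries, among the solutions with the same period, rotation and energy.

Nothing is assumed on the dependence of the rotation angle on the angular momentum, contrary to
`NondegenerateUnstable` (the linearised equations have here, besides the two trivial ones, one more
solution with the symmetry of `x`, the derivative of `y h`).

Proof. Let `X = x'`, `R = i x`. By the implicit function theorem there are relative periodic points `z (h)` of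
the energy of `x` and of the angular momentum `C(x) + h` in a slice transversal to `X` and `R`, with period `S (h)`
and rotation angle `θ (h)`. By the starting result `StableOrbitsLockRotations` a power of the
rotation is trivial, so `θ (h) = 0`. By `ThinKeplerQuantities` the number `S (h)² (-E)³` is constant,
and `E < 0`, so `S (h) = S`.
-/

set_option autoImplicit false

open scoped ContDiff

namespace Pool.Agent.Results.MP_5027f4_mp.StableOrbitsInKeplerFamilies

/-- Phase points of `n` bodies in the plane `ℂ`: positions and velocities (product topology). -/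
abbrev Ph (n : ℕ) := (Fin n → ℂ) × (Fin n → ℂ)

/-- Newtonian acceleration of body `a`: `∑_{b ≠ a} m_b (q_b - q_a) / |q_b - q_a|^3`. -/
noncomputable def acc {n : ℕ} (m : Fin n → ℝ) (q : Fin n → ℂ) (a : Fin n) : ℂ :=
  ∑ b ∈ Finset.univ.erase a, ((m b / ‖q b - q a‖ ^ 3 : ℝ) : ℂ) * (q b - q a)

/-- The energy `∑ m_a |v_a|^2 / 2 - ∑_{a < b} m_a m_b / |q_b - q_a|` (each pair occurs twice in the
double sum, which is halved). -/
noncomputable def energy {n : ℕ} (m : Fin n → ℝ) (z : Ph n) : ℝ :=
  (∑ a, m a * ‖z.2 a‖ ^ 2) / 2 -
    (∑ a, ∑ b ∈ Finset.univ.erase a, m a * m b / ‖z.1 b - z.1 a‖) / 2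

/-- The angular momentum `∑ m_a (q_a × v_a)`. -/
noncomputable def ang {n : ℕ} (m : Fin n → ℝ) (z : Ph n) : ℝ :=
  ∑ a, m a * (starRingEnd ℂ (z.1 a) * z.2 a).im

/-- The phase space in the centre of mass frame: no collisions, `∑ m_a q_a = 0`, `∑ m_a v_a = 0`. -/
def phaseSpace {n : ℕ} (m : Fin n → ℝ) : Set (Ph n) :=
  {z | (∀ a b, a ≠ b → z.1 a ≠ z.1 b) ∧ ∑ a, (m a : ℂ) * z.1 a = 0 ∧ ∑ a, (m a : ℂ) * z.2 a = 0}

/-- `x = (q, v)` is a solution of Newton's equations on the time set `J`, in the centre of mass frame. -/
def IsSol {n : ℕ} (m : Fin n → ℝ) (J : Set ℝ) (x : ℝ → Ph n) : Prop :=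
  ∀ t ∈ J, x t ∈ phaseSpace m ∧ HasDerivWithinAt x ((x t).2, acc m (x t).1) J t

/-- All mutual distances are constant: a relative equilibrium. -/
def IsRelEq {n : ℕ} (x : ℝ → Ph n) : Prop :=
  ∀ t a b, ‖(x t).1 a - (x t).1 b‖ = ‖(x 0).1 a - (x 0).1 b‖

/-- Lyapunov stability of an orbit `γ` in the centre of mass frame: for every neighbourhood `U₁` there is
a neighbourhood `U₂` such that every solution on `[0, ∞)` that starts in `U₂` stays in `U₁`. -/
def LyapunovStable {n : ℕ} (m : Fin n → ℝ) (γ : Set (Ph n)) : Prop :=
  ∀ U₁ : Set (Ph n), IsOpen U₁ → γ ⊆ U₁ → ∃ U₂ : Set (Ph n), IsOpen U₂ ∧ γ ⊆ U₂ ∧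
    ∀ y : ℝ → Ph n, IsSol m (Set.Ici 0) y → y 0 ∈ U₂ → ∀ t : ℝ, 0 ≤ t → y t ∈ U₁

/-- Rotate a phase point by `c` and relabel the bodies by `σ`. -/
def twist {n : ℕ} (c : ℂ) (σ : Equiv.Perm (Fin n)) (z : Ph n) : Ph n :=
  (fun a => c * z.1 (σ a), fun a => c * z.2 (σ a))

/-- Reduced nondegeneracy of a solution `x` with `x (t + S) = twist c σ (x t)`: let `ξ = (δq, δv)` be a
solution of the linearised equations `δq' = δv`, `δv' = D acc (q) δq` along `x`, in the centre of mass
frame, along which the derivatives of energy and angular momentum vanish, and which has the symmetry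
of `x` up to a shift of the time and a rotation: `ξ (t + S) = twist c σ (ξ t + α x' t + β i x t)`. Then `ξ` is a
combination of the velocity `x'` (shift of the time) and `i x` (rotation). -/
def ReducedNondegenerate {n : ℕ} (m : Fin n → ℝ) (x : ℝ → Ph n) (c : ℂ) (σ : Equiv.Perm (Fin n))
    (S : ℝ) : Prop :=
  ∀ (ξ : ℝ → Ph n) (α β : ℝ),
    (∀ t, ∑ a, (m a : ℂ) * (ξ t).1 a = 0 ∧ ∑ a, (m a : ℂ) * (ξ t).2 a = 0) →
    (∀ t, HasDerivAt ξ ((ξ t).2, fderiv ℝ (acc m) (x t).1 (ξ t).1) t) →
    (∀ t, ξ (t + S) =
      twist c σ (ξ t + α • ((x t).2, acc m (x t).1) + β • (Complex.I • x t))) →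
    fderiv ℝ (energy m) (x 0) (ξ 0) = 0 → fderiv ℝ (ang m) (x 0) (ξ 0) = 0 →
    ∃ a b : ℝ, ∀ t, ξ t = a • ((x t).2, acc m (x t).1) + b • (Complex.I • x t)

/-- **Stable orbits and families.** Let `x` be a solution, not a relative equilibrium, with
`x (t + S) = twist c σ (x t)` for some `S > 0`, some rotation `c` and some permutation `σ` of the bodies which
respects the masses. If `x` is reduced nondegenerate and its orbit is Lyapunov stable in the centre of
mass frame, then there is a family `y h`, `|h| < ε`, of solutions, smooth at `h = 0`, with `y 0 = x`, which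
have all the same `S`, `c`, `σ` and the same energy, and the angular momentum of `y h` is that of `x`
plus `h`. -/
theorem result {n : ℕ} {m : Fin n → ℝ} (hn : 2 ≤ n) (hm : ∀ a, 0 < m a) {x : ℝ → Ph n}
    (hx : IsSol m Set.univ x) (hne : ¬ IsRelEq x) {c : ℂ} {σ : Equiv.Perm (Fin n)} {S : ℝ}
    (hc : ‖c‖ = 1) (hσ : ∀ a, m (σ a) = m a) (hS : 0 < S) (hper : ∀ t, x (t + S) = twist c σ (x t))
    (hnd : ReducedNondegenerate m x c σ S) (hst : LyapunovStable m (Set.range x)) :
    ∃ (ε : ℝ) (y : ℝ → ℝ → Ph n), 0 < ε ∧ y 0 = x ∧
      (∀ t, ContDiffAt ℝ ∞ (fun p : ℝ × ℝ => y p.1 p.2) (0, t)) ∧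
      ∀ h : ℝ, |h| < ε → IsSol m Set.univ (y h) ∧ (∀ t, y h (t + S) = twist c σ (y h t)) ∧
        energy m (y h 0) = energy m (x 0) ∧ ang m (y h 0) = ang m (x 0) + h :=
  Pool.Agent.J6H86.NP.fam_main hn hm hx hc hσ hS hper hne hnd hst

end Pool.Agent.Results.MP_5027f4_mp.StableOrbitsInKeplerFamilies
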