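import Pool.Agent.J6H86.NP.MinMain

set_option autoImplicit false

namespace Pool.Agent.Results.MP_5027f4_mp.StrictMinimizersUnstable

/-- Phase points of `n` bodies in the plane `ℂ`: positions and velocities (product topology). -/
abbrev Ph (n : ℕ) := (Fin n → ℂ) × (Fin n → ℂ)

/-- Newtonian acceleration of body `a`: `∑_{b ≠ a} m_b (q_b - q_a) / |q_b - q_a|^3`. -/
noncomputable def acc {n : ℕ} (m : Fin n → ℝ) (q : Fin n → ℂ) (a : Fin n) : ℂ :=
  ∑ b ∈ Finset.univ.erase a, ((m b / ‖q b - q a‖ ^ 3 : ℝ) : ℂ) * (q b - q a)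

/-- The phase space in the centre of mass frame: no collisions, `∑ m_a q_a = 0`, `∑ m_a v_a = 0`. -/
def phaseSpace {n : ℕ} (m : Fin n → ℝ) : Set (Ph n) :=
  {z | (∀ a b, a ≠ b → z.1 a ≠ z.1 b) ∧ ∑ a, (m a : ℂ) * z.1 a = 0 ∧ ∑ a, (m a : ℂ) * z.2 a = 0}

/-- `x = (q, v)` is a solution of Newton's equations on the time set `J`, in the centre of mass frame. -/
def IsSol {n : ℕ} (m : Fin n → ℝ) (J : Set ℝ) (x : ℝ → Ph n) : Prop :=
  ∀ t ∈ J, x t ∈ phaseSpace m ∧ HasDerivWithinAt x ((x t).2, acc m (x t).1) J t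

/-- All mutual distances of the solution `x` are `T`-periodic functions of time. -/
def DistPer {n : ℕ} (x : ℝ → Ph n) (T : ℝ) : Prop :=
  ∀ t a b, ‖(x (t + T)).1 a - (x (t + T)).1 b‖ = ‖(x t).1 a - (x t).1 b‖

/-- All mutual distances are constant: a relative equilibrium. -/
def IsRelEq {n : ℕ} (x : ℝ → Ph n) : Prop :=
  ∀ t a b, ‖(x t).1 a - (x t).1 b‖ = ‖(x 0).1 a - (x 0).1 b‖

/-- Lyapunov stability of an orbit `γ` in the centre of mass frame: for every neighbourhood `U₁` there is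
a neighbourhood `U₂` such that every solution on `[0, ∞)` that starts in `U₂` stays in `U₁`. -/
def LyapunovStable {n : ℕ} (m : Fin n → ℝ) (γ : Set (Ph n)) : Prop :=
  ∀ U₁ : Set (Ph n), IsOpen U₁ → γ ⊆ U₁ → ∃ U₂ : Set (Ph n), IsOpen U₂ ∧ γ ⊆ U₂ ∧
    ∀ y : ℝ → Ph n, IsSol m (Set.Ici 0) y → y 0 ∈ U₂ → ∀ t : ℝ, 0 ≤ t → y t ∈ U₁

/-- The action `∫ (∑ m_a |q_a'|^2 / 2 + ∑_{a < b} m_a m_b / |q_b - q_a|) dt` over `[0, S]` of the
curve of positions `q` (each pair occurs twice in the double sum, which is halved). -/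
noncomputable def action {n : ℕ} (m : Fin n → ℝ) (q : ℝ → Fin n → ℂ) (S : ℝ) : ℝ :=
  ∫ t in (0 : ℝ)..S, ((∑ a, m a * ‖deriv q t a‖ ^ 2) / 2 +
    (∑ a, ∑ b ∈ Finset.univ.erase a, m a * m b / ‖q t b - q t a‖) / 2)

/-- `x` is a strict local minimiser of the action, up to rotations and shifts of the time, among the
curves `q` with the same symmetry `q_a (t + S) = c q_{σ a} (t)` and with centre of mass `0`: for some
`ρ > 0` every such curve for which the difference `q - x` is at most `ρ` and has the Lipschitz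
constant `ρ` either has a larger action than `x`, or is `x` up to a rotation and a shift of the time. -/
def StrictLocalMin {n : ℕ} (m : Fin n → ℝ) (x : ℝ → Ph n) (c : ℂ) (σ : Equiv.Perm (Fin n))
    (S : ℝ) : Prop :=
  ∃ ρ : ℝ, 0 < ρ ∧ ∀ q : ℝ → Fin n → ℂ,
    (∀ t a, q (t + S) a = c * q t (σ a)) →
    (∀ t, ∑ a, (m a : ℂ) * q t a = 0) →
    (∀ t, ‖q t - (x t).1‖ ≤ ρ) →
    (∀ s t, ‖(q t - (x t).1) - (q s - (x s).1)‖ ≤ ρ * |t - s|) →
    action m (fun t => (x t).1) S < action m q S ∨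
      ∃ (w : ℂ) (τ : ℝ), ‖w‖ = 1 ∧ ∀ t, q t = w • (x (t + τ)).1

/-- Strict local minimisers of the action of the planar `n`-body problem are not Lyapunov stable. Let
`x` be a solution, not a relative equilibrium, with `x_a (t + S) = c x_{σ a} (t)` for some `S > 0`,
some rotation `c` and some permutation `σ` of the bodies which respects the masses. If `x` is a strict
local minimiser of the action, up to rotations and shifts of the time, among the curves with the same
symmetry, then its orbit is not Lyapunov stable in the centre of mass frame. No nondegeneracy is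
assumed. This covers all relative periodic solutions: if the mutual distances have the period `T`,
then `x (t + 2 T) = c x t` for a rotation `c`. -/
theorem result {n : ℕ} {m : Fin n → ℝ} (hn : 2 ≤ n) (hm : ∀ a, 0 < m a) {x : ℝ → Ph n}
    (hx : IsSol m Set.univ x) (hne : ¬ IsRelEq x) :
    (∀ (c : ℂ) (σ : Equiv.Perm (Fin n)) (S : ℝ), ‖c‖ = 1 → (∀ a, m (σ a) = m a) → 0 < S →
      (∀ t, (∀ a, (x (t + S)).1 a = c * (x t).1 (σ a)) ∧
        ∀ a, (x (t + S)).2 a = c * (x t).2 (σ a)) →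
      StrictLocalMin m x c σ S → ¬ LyapunovStable m (Set.range x)) ∧
    ∀ T : ℝ, 0 < T → DistPer x T → ∃ c : ℂ, ‖c‖ = 1 ∧ (∀ t, x (t + 2 * T) = c • x t) ∧
      (StrictLocalMin m x c 1 (2 * T) → ¬ LyapunovStable m (Set.range x)) := by
  have key : ∀ (c : ℂ) (σ : Equiv.Perm (Fin n)) (S : ℝ), ‖c‖ = 1 → (∀ a, m (σ a) = m a) → 0 < S →
      (∀ t, (∀ a, (x (t + S)).1 a = c * (x t).1 (σ a)) ∧
        ∀ a, (x (t + S)).2 a = c * (x t).2 (σ a)) →
      StrictLocalMin m x c σ S → ¬ LyapunovStable m (Set.range x) := by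
    rintro c σ S hc hσ hS hper ⟨ρ, hρ, hmin⟩
    have hper' : ∀ t, x (t + S) = Pool.Agent.J6H86.NP.rot c σ (x t) := fun t =>
      Prod.ext_iff.2 ⟨funext (hper t).1, funext (hper t).2⟩
    exact Pool.Agent.J6H86.NP.main_min hn hm hx hc hσ hS hper' hne hρ hmin
  refine ⟨key, fun T hT hdist => ?_⟩
  obtain ⟨c, hc, hrot⟩ := Pool.Agent.W821.TB.rot_of_distPer Pool.Agent.W827.TB.Gram.main hn hm hx hdist
  refine ⟨c, hc, hrot, fun hmin => key c 1 (2 * T) hc (fun _ => rfl) (by positivity) ?_ hmin⟩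
  intro t
  rw [hrot t]
  exact ⟨fun _ => rfl, fun _ => rfl⟩

end Pool.Agent.Results.MP_5027f4_mp.StrictMinimizersUnstable
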