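import Pool.Agent.J6H86.NP.SpecMain
import Pool.Agent.J6H86.NP.ThinField

/-!
# The Kepler quantities of Lyapunov stable orbits of the planar `n`-body problem form a thin set

For a relative periodic solution of the planar `n`-body problem of energy `E` whose mutual distances
have the period `S` the number `κ = S² (-E)³` does not change if the solution is scaled. In the
Kepler problem it is determined by the masses, up to squares of integers; for more bodies the relative
periodic solutions come in families along which `κ` varies.

A set of real numbers is thin (`Thin`) if all smooth functions of finitely many of its elements take only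
a null set of values; then it is a null set, and so is the field which it generates.

**Result.** Fix the number `n ≥ 2` of bodies and the masses. The set `kappas m` of the numbers `κ` of all
Lyapunov stable relative periodic solutions, other than relative equilibria, is thin, and generates a field
of measure zero. In particular, for almost every real number `κ` there is no Lyapunov stable relative
periodic solution with this `κ` (other than a relative equilibrium). Moreover each such stable orbit has a neighbourhood `U` such that the numbers `κ` of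
all relative periodic solutions which start in `U`, stable or not, form a thin set, so that `κ` is
constant on each connected set of such solutions.

Proof. By the starting result `StableOrbitsLockRotations` all relative periodic solutions close to a stable
one are periodic. For the truncated flow `F` the function `B (z, S)`, the action of the arc from `z` to
`F S z` minus the product of the momentum at `z` and the difference of the positions, has at closed
orbits the value `-3 S E` (virial theorem) and the differential `- E dS`. Hence closed orbits are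
critical points of `B³ / (27 S)`, with the value `κ`, and the theorem of Morse and Sard (for smooth
functions on products) applies.
-/

set_option autoImplicit false

open MeasureTheory
open scoped ContDiff

namespace Pool.Agent.Results.MP_5027f4_mp.ThinKeplerQuantities

/-- Phase points of `n` bodies in the plane `ℂ`: positions and velocities (product topology). -/
abbrev Ph (n : ℕ) := (Fin n → ℂ) × (Fin n → ℂ)

/-- Newtonian acceleration of body `a`: `∑_{b ≠ a} m_b (q_b - q_a) / |q_b - q_a|^3`. -/
noncomputable def acc {n : ℕ} (m : Fin n → ℝ) (q : Fin n → ℂ) (a : Fin n) : ℂ :=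
  ∑ b ∈ Finset.univ.erase a, ((m b / ‖q b - q a‖ ^ 3 : ℝ) : ℂ) * (q b - q a)

/-- The energy `∑ m_a |v_a|^2 / 2 - ∑_{a < b} m_a m_b / |q_b - q_a|` (each pair occurs twice in the
double sum, which is halved). -/
noncomputable def energy {n : ℕ} (m : Fin n → ℝ) (z : Ph n) : ℝ :=
  (∑ a, m a * ‖z.2 a‖ ^ 2) / 2 -
    (∑ a, ∑ b ∈ Finset.univ.erase a, m a * m b / ‖z.1 b - z.1 a‖) / 2

/-- The phase space in the centre of mass frame: no collisions, `∑ m_a q_a = 0`, `∑ m_a v_a = 0`. -/
def phaseSpace {n : ℕ} (m : Fin n → ℝ) : Set (Ph n) :=
  {z | (∀ a b, a ≠ b → z.1 a ≠ z.1 b) ∧ ∑ a, (m a : ℂ) * z.1 a = 0 ∧ ∑ a, (m a : ℂ) * z.2 a = 0}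

/-- `x = (q, v)` is a solution of Newton's equations on the time set `J`, in the centre of mass frame. -/
def IsSol {n : ℕ} (m : Fin n → ℝ) (J : Set ℝ) (x : ℝ → Ph n) : Prop :=
  ∀ t ∈ J, x t ∈ phaseSpace m ∧ HasDerivWithinAt x ((x t).2, acc m (x t).1) J t

/-- All mutual distances of the solution `x` are `T`-periodic functions of time. -/
def DistPer {n : ℕ} (x : ℝ → Ph n) (T : ℝ) : Prop :=
  ∀ t a b, ‖(x (t + T)).1 a - (x (t + T)).1 b‖ = ‖(x t).1 a - (x t).1 b‖

/-- All mutual distances are constant: a relative equilibrium. -/
def IsRelEq {n : ℕ} (x : ℝ → Ph n) : Prop :=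
  ∀ t a b, ‖(x t).1 a - (x t).1 b‖ = ‖(x 0).1 a - (x 0).1 b‖

/-- Lyapunov stability of an orbit `γ` in the centre of mass frame: for every neighbourhood `U₁` there is
a neighbourhood `U₂` such that every solution on `[0, ∞)` that starts in `U₂` stays in `U₁`. -/
def LyapunovStable {n : ℕ} (m : Fin n → ℝ) (γ : Set (Ph n)) : Prop :=
  ∀ U₁ : Set (Ph n), IsOpen U₁ → γ ⊆ U₁ → ∃ U₂ : Set (Ph n), IsOpen U₂ ∧ γ ⊆ U₂ ∧
    ∀ y : ℝ → Ph n, IsSol m (Set.Ici 0) y → y 0 ∈ U₂ → ∀ t : ℝ, 0 ≤ t → y t ∈ U₁

/-- The number `κ = S² (-E)³` for the energy `E` at the phase point `z`. -/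
noncomputable def kappa {n : ℕ} (m : Fin n → ℝ) (z : Ph n) (S : ℝ) : ℝ :=
  S ^ 2 * (- energy m z) ^ 3

/-- The numbers `κ` of all Lyapunov stable relative periodic solutions other than relative equilibria. -/
def kappas {n : ℕ} (m : Fin n → ℝ) : Set ℝ :=
  {κ | ∃ (x : ℝ → Ph n) (S : ℝ), IsSol m Set.univ x ∧ 0 < S ∧ DistPer x S ∧ ¬ IsRelEq x ∧
    LyapunovStable m (Set.range x) ∧ κ = kappa m (x 0) S}

/-- `y` is a solution on `ℝ` which starts in `U` and whose mutual distances have the period `S > 0`. -/
def RelPer {n : ℕ} (m : Fin n → ℝ) (U : Set (Ph n)) (y : ℝ → Ph n) (S : ℝ) : Prop :=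
  IsSol m Set.univ y ∧ y 0 ∈ U ∧ 0 < S ∧ DistPer y S

/-- For every smooth function `G` of finitely many variables, defined on an open set `O`, the set of
the values of `G` at the points of `O` with coordinates in `K` is a null set. (For one variable and
`G v = v` this means that `K` is a null set.) -/
def Thin (K : Set ℝ) : Prop :=
  ∀ (k : ℕ) (O : Set (Fin k → ℝ)) (G : (Fin k → ℝ) → ℝ), IsOpen O → ContDiffOn ℝ ∞ G O →
    volume (G '' {v | v ∈ O ∧ ∀ i, v i ∈ K}) = 0

/-- **The numbers `κ = S² (-E)³` of stable orbits.** (1) The set of the numbers `κ` of all Lyapunov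
stable relative periodic solutions other than relative equilibria is thin, and the field which it
generates is a null set.
(2) If `x` is such a solution then there is a neighbourhood `U` of its orbit such that the set of the
numbers `κ` of all relative periodic solutions which start in `U` is thin; `κ` is constant on each
connected set `P` of pairs of an initial value in `U` and a period of such solutions. -/
theorem result {n : ℕ} {m : Fin n → ℝ} (hn : 2 ≤ n) (hm : ∀ a, 0 < m a) :
    (Thin (kappas m) ∧ volume ((Subfield.closure (kappas m) : Subfield ℝ) : Set ℝ) = 0) ∧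
    ∀ (x : ℝ → Ph n) (T : ℝ), IsSol m Set.univ x → 0 < T → DistPer x T → ¬ IsRelEq x →
      LyapunovStable m (Set.range x) →
      ∃ U : Set (Ph n), IsOpen U ∧ Set.range x ⊆ U ∧
        Thin {κ | ∃ (y : ℝ → Ph n) (S : ℝ), RelPer m U y S ∧ κ = kappa m (y 0) S} ∧
        ∀ P : Set (Ph n × ℝ), IsPreconnected P → (∀ p ∈ P, ∃ y, RelPer m U y p.2 ∧ y 0 = p.1) →
          ∀ p ∈ P, ∀ q ∈ P, kappa m p.1 p.2 = kappa m q.1 q.2 := by
  have h := Pool.Agent.J6H86.NP.thin_stable hn hm
  refine ⟨⟨h, Pool.Agent.J6H86.NP.Thin.field h⟩, fun x T hx hT hd hne hst => ?_⟩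
  obtain ⟨U, hU, hxU, hthin⟩ := Pool.Agent.J6H86.NP.thin_near hn hm hx hT hd hne hst
  exact ⟨U, hU, hxU, hthin, fun P hP h => Pool.Agent.J6H86.NP.const_near hthin hP h⟩

end Pool.Agent.Results.MP_5027f4_mp.ThinKeplerQuantities
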